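import Mathlib
import Pool.Agent.H707R3.WeilTower

/-!
# Linear ramification growth for `L`-functions of `ℤ_p`-towers (Wan's conjecture)

For every `ℤ_p`-tower of curves over a finite field of characteristic `p` with finite ramification
locus, `L(χ_n, s)` is a polynomial (Weil) and the ramification index over `ℚ_p` of the field generated
by its reciprocal roots is at least `c p ^ n`, for all large `n`.

The idea: the coefficient of `s ^ k` in `L(χ_n, s)` is a sum of `p ^ n`-th roots of unity whose
exponents are `p`-adic integers that do not depend on `n`. Such a sum, for a suitable fixed `k`, is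
moved by all but boundedly many elements of `Gal(ℚ_p(ζ_{p ^ n}) / ℚ_p)`.
-/

open PowerSeries

namespace Pool.Agent.Results.MP_30d976_nt.LinearRamification

open Pool.Agent.H707R3

theorem result (p : ℕ) [Fact p.Prime] (k F E : Type) [Field k] [Finite k] [CharP k p]
    [Field F] [Algebra k F] [Field E] [Algebra F E] [Algebra k E] [IsScalarTower k F E]
    (h : IsZpTower k F E p) :
    ∃ c : ℝ, 0 < c ∧ ∃ N : ℕ, ∀ n, N ≤ n →
      ∀ χ : (E ≃ₐ[F] E) →* ℂ_[p]ˣ, orderOf χ = p ^ n →
        (∃ A : Multiset ℂ_[p], Lfun k χ = (A.map fun α => 1 - C α * X).prod) ∧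
          ∀ A : Multiset ℂ_[p], Lfun k χ = (A.map fun α => 1 - C α * X).prod →
            c ≤ ((p : ℝ) ^ n)⁻¹ *
              ramIdx (IntermediateField.adjoin ℚ_[p] {α : ℂ_[p] | α ∈ A}) := by
  obtain ⟨c, hc, N, hN⟩ := ramification_Lfun k h
  obtain ⟨N', hN'⟩ := Lfun_poly h
  refine ⟨c, hc, max N N', fun n hn χ hχ =>
    ⟨hN' n ((le_max_right _ _).trans hn) χ hχ, fun A hA => ?_⟩⟩
  have h1 := hN n ((le_max_left _ _).trans hn) χ hχ A hA
  have hp : (0 : ℝ) < (p : ℝ) ^ n := pow_pos (by exact_mod_cast (Fact.out : p.Prime).pos) n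
  rw [inv_mul_eq_div, le_div_iff₀ hp]
  exact h1

end Pool.Agent.Results.MP_30d976_nt.LinearRamification
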